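import Mathlib
import Pool.Agent.H51.IdxB

set_option autoImplicit false

namespace Pool.Agent.Results.MP_317a58_an.Renorm

open Filter Topology Pool.Agent.H51.IdxA Pool.Agent.H51.IdxB

/-- `x` is a Schauder basis of `E` with coefficient map `a`: every `y` has the norm convergent
expansion `∑ a y i • x i`, and this is its only such expansion. -/
def IsBasis {𝕜 : Type} [RCLike 𝕜] {E : Type} [NormedAddCommGroup E] [NormedSpace 𝕜 E]
    (x : ℕ → E) (a : E → ℕ → 𝕜) : Prop :=
  (∀ y, Tendsto (fun n => ∑ i ∈ Finset.range n, a y i • x i) atTop (𝓝 y)) ∧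
  ∀ (y : E) (α : ℕ → 𝕜), Tendsto (fun n => ∑ i ∈ Finset.range n, α i • x i) atTop (𝓝 y) →
    α = a y

theorem result (𝕜 : Type) [RCLike 𝕜] (E : Type) [NormedAddCommGroup E] [NormedSpace 𝕜 E]
    [CompleteSpace E] (hE : ¬ FiniteDimensional 𝕜 E) :
    ∃ N : Seminorm 𝕜 E,
      (∃ c C : ℝ, 0 < c ∧ c ≤ C ∧ ∀ y, c * ‖y‖ ≤ N y ∧ N y ≤ C * ‖y‖) ∧
      ∃ v : ℝ, 1 < v ∧ ∀ (x : ℕ → E) (a : E → ℕ → 𝕜), IsBasis x a →
        ∃ (n : ℕ) (y : E), v * N y < N (∑ i ∈ Finset.range n, a y i • x i) := by
  classical
  obtain ⟨e, f, h⟩ := ex_bio hE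
  obtain ⟨N, hN, v, hv, hmain⟩ := main h
  refine ⟨N, hN, v, hv, fun x a hb => ?_⟩
  have hadd : ∀ y z, a (y + z) = a y + a z := by
    intro y z
    refine (hb.2 (y + z) _ ?_).symm
    refine ((hb.1 y).add (hb.1 z)).congr (fun n => ?_)
    rw [← Finset.sum_add_distrib]
    exact Finset.sum_congr rfl (fun i _ => by rw [Pi.add_apply, add_smul])
  have hsm : ∀ (c : 𝕜) y, a (c • y) = c • a y := by
    intro c y
    refine (hb.2 (c • y) _ ?_).symm
    refine ((hb.1 y).const_smul c).congr (fun n => ?_)
    rw [Finset.smul_sum]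
    exact Finset.sum_congr rfl (fun i _ => by rw [Pi.smul_apply, smul_eq_mul, smul_smul])
  let u : ℕ → E →ₗ[𝕜] E := fun n =>
    { toFun := fun y => ∑ i ∈ Finset.range n, a y i • x i
      map_add' := fun y z => by
        rw [hadd, ← Finset.sum_add_distrib]
        exact Finset.sum_congr rfl (fun i _ => by rw [Pi.add_apply, add_smul])
      map_smul' := fun c y => by
        rw [hsm, Finset.smul_sum]
        exact Finset.sum_congr rfl (fun i _ => by
          rw [Pi.smul_apply, smul_eq_mul, RingHom.id_apply, smul_smul]) }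
  have hu : ∀ n y, u n y = ∑ i ∈ Finset.range n, a y i • x i := fun _ _ => rfl
  refine hmain u (fun n => ?_) (fun n y => ?_) hb.1
  · have hle : LinearMap.range (u n) ≤
        Submodule.span 𝕜 ((Finset.image x (Finset.range n) : Finset E) : Set E) := by
      rintro _ ⟨y, rfl⟩
      rw [hu]
      refine Submodule.sum_mem _ (fun i hi => Submodule.smul_mem _ _ (Submodule.subset_span ?_))
      simp only [Finset.coe_image]
      exact ⟨i, hi, rfl⟩
    exact Submodule.finiteDimensional_of_le hle
  · have h1 : (fun i => if i < n then a y i else 0) = a (u n y) := by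
      apply hb.2
      refine tendsto_const_nhds.congr' ?_
      filter_upwards [eventually_ge_atTop n] with m hm
      rw [hu]
      symm
      rw [← Finset.sum_subset (Finset.range_subset_range.2 hm) (fun i _ hi => by
        rw [Finset.mem_range] at hi; rw [if_neg hi, zero_smul])]
      exact Finset.sum_congr rfl (fun i hi => by rw [Finset.mem_range] at hi; rw [if_pos hi])
    rw [hu n (u n y), ← h1, hu]
    exact Finset.sum_congr rfl (fun i hi => by rw [Finset.mem_range] at hi; simp only [if_pos hi])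

end Pool.Agent.Results.MP_317a58_an.Renorm
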